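import Pool.Agent.Y201.LI.Stm5
import Pool.Agent.Y905.LI.Rk1

/-!
# Project LI, job RK2: a point at which the trilinear form is the product of a coordinate and a
square (variant of RK1 of helper905)
-/

set_option autoImplicit false

namespace Pool.Agent.Y151.LI

open MvPolynomial Pool.Agent.Y363.LI Pool.Agent.Y905.LI

noncomputable section

theorem rk2 : Pool.Agent.Y201.LI.S_RK2 := by
  classical
  intro r m T hT' hr p hp
  have hT : Sy T := hT'
  have hmr : m ≤ r := by
    have := hp.fintype_card_le_finrank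
    rwa [Fintype.card_fin, Module.finrank_fin_fun] at this
  -- more directions
  obtain ⟨u, hu⟩ : ∃ u : Fin (r - m) → Fin r → ℂ, ∀ y : Fin (r - m) → ℂ,
      ∑ i, y i • u i ∈ Submodule.span ℂ (Set.range p) → y = 0 := by
    set N := Submodule.span ℂ (Set.range p) with hN
    have h1 : Module.finrank ℂ N = m := by
      rw [hN, finrank_span_eq_card hp, Fintype.card_fin]
    have h2 : Module.finrank ℂ ((Fin r → ℂ) ⧸ N) + Module.finrank ℂ N = r := by
      rw [Submodule.finrank_quotient_add_finrank, Module.finrank_fin_fun]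
    have h3 : r - m ≤ Module.finrank ℂ ((Fin r → ℂ) ⧸ N) := by omega
    obtain ⟨w, hw⟩ := exists_linearIndependent_of_le_finrank h3
    choose u hu using fun i => N.mkQ_surjective (w i)
    refine ⟨u, fun y hy => ?_⟩
    have h4 : ∑ i, y i • w i = 0 := by
      have h5 : N.mkQ (∑ i, y i • u i) = 0 := by
        rw [Submodule.mkQ_apply, Submodule.Quotient.mk_eq_zero]
        exact hy
      rw [map_sum] at h5
      rw [← h5]
      exact Finset.sum_congr rfl fun i _ => by rw [map_smul, hu]
    ext i
    exact (Fintype.linearIndependent_iff.1 hw) y h4 i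
  -- the equations
  let σ := Fin (r - m) ⊕ Fin (m + 1)
  let ηp : Fin r → MvPolynomial σ ℂ := fun j => ∑ i, C (u i j) * X (Sum.inl i)
  let E : Fin (m + 1) → Fin (m + 1) → MvPolynomial σ ℂ := fun i j =>
    C (kap i j) * Bf T ηp (Pv p ηp i) (Pv p ηp j) - X (Sum.inr i) * X (Sum.inr j)
  have hEev : ∀ (v : σ → ℂ) (i j : Fin (m + 1)), eval v (E i j) =
      kap i j * Bf T (∑ a, v (Sum.inl a) • u a) (Pv p (∑ a, v (Sum.inl a) • u a) i)
        (Pv p (∑ a, v (Sum.inl a) • u a) j) - v (Sum.inr i) * v (Sum.inr j) := by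
    intro v i j
    have hη : (fun k => (aeval v : MvPolynomial σ ℂ →ₐ[ℂ] ℂ) (ηp k)) =
        ∑ a, v (Sum.inl a) • u a := by
      ext k
      simp only [ηp, map_sum, map_mul, aeval_C, aeval_X, Finset.sum_apply, Pi.smul_apply,
        smul_eq_mul, Algebra.algebraMap_self, RingHom.id_apply]
      exact Finset.sum_congr rfl fun a _ => mul_comm _ _
    have hP : ∀ i, (fun k => (aeval v : MvPolynomial σ ℂ →ₐ[ℂ] ℂ) (Pv p ηp i k)) =
        Pv p (∑ a, v (Sum.inl a) • u a) i := by
      intro i
      refine Fin.cases ?_ (fun a => ?_) i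
      · exact hη
      · ext k
        simp only [Pv, Fin.cons_succ, AlgHom.commutes]
    have h1 : eval v (E i j) = (aeval v : MvPolynomial σ ℂ →ₐ[ℂ] ℂ) (E i j) :=
      (MvPolynomial.coe_aeval_eq_eval v ▸ rfl)
    rw [h1]
    simp only [E, map_sub, map_mul, aeval_C, aeval_X, map_Bf, hη, hP, Algebra.algebraMap_self,
      RingHom.id_apply]
  let P : Ix m → MvPolynomial σ ℂ := fun t => E t.1 ⟨t.2.val, by have := t.2.2; have := t.1.2; omega⟩
  have hP0 : ∀ t, eval 0 (P t) = 0 := by
    intro t
    show eval 0 (E _ _) = 0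
    rw [hEev]
    have : ∑ a, (0 : σ → ℂ) (Sum.inl a) • u a = 0 := by simp
    rw [this, Bf_zero1]
    simp
  have hcard : Fintype.card (Ix m) < Fintype.card σ := by
    have h1 := card_Ix m
    have h2 : Fintype.card σ = r + 1 := by
      show Fintype.card (Fin (r - m) ⊕ Fin (m + 1)) = r + 1
      rw [Fintype.card_sum, Fintype.card_fin, Fintype.card_fin]
      omega
    rw [h2]
    nlinarith
  obtain ⟨v, hv0, hv⟩ := Pool.Agent.H552R3.Tsen.exists_common_zero P hP0 hcard
  set η : Fin r → ℂ := ∑ a, v (Sum.inl a) • u a with hη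
  set L : Fin (m + 1) → ℂ := fun i => v (Sum.inr i) with hL
  have hE : ∀ i j : Fin (m + 1), j ≤ i →
      kap i j * Bf T η (Pv p η i) (Pv p η j) = L i * L j := by
    intro i j hij
    have h1 := hv ⟨i, ⟨j.val, by have : j.val ≤ i.val := hij; omega⟩⟩
    have h2 : eval v (E i j) = 0 := h1
    rw [hEev] at h2
    linear_combination h2
  have hE' : ∀ i j : Fin (m + 1),
      kap i j * Bf T η (Pv p η i) (Pv p η j) = L i * L j := by
    intro i j
    rcases le_total j i with h | h
    · exact hE i j h
    · rw [kap_comm, Bf_23 hT, hE j i h, mul_comm]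
  have hy : (fun a => v (Sum.inl a)) ≠ (0 : Fin (r - m) → ℂ) := by
    intro h0
    have hη0 : η = 0 := by
      rw [hη]
      apply Finset.sum_eq_zero
      intro a _
      have := congrFun h0 a
      simp only [Pi.zero_apply] at this
      rw [this, zero_smul]
    apply hv0
    ext s
    rcases s with a | i
    · exact congrFun h0 a
    · have h1 := hE' i i
      rw [hη0, Bf_zero1, mul_zero] at h1
      exact mul_self_eq_zero.1 h1.symm
  have hηN : η ∉ Submodule.span ℂ (Set.range p) := fun h => hy (hu _ h)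
  have e0 : Bf T η η η = L 0 * L 0 := by
    have := hE' 0 0
    simpa [kap, Pv] using this
  have e1 : ∀ a : Fin m, 3 * Bf T η η (p a) = 2 * (L 0 * L a.succ) := by
    intro a
    have := hE' 0 a.succ
    have h2 : Pv p η a.succ = p a := by
      ext k
      simp [Pv]
    have h3 : Pv p η 0 = η := rfl
    rw [h2, h3] at this
    have h4 : kap (0 : Fin (m + 1)) a.succ = 3 / 2 := by
      unfold kap
      simp [Fin.succ_ne_zero]
    rw [h4] at this
    linear_combination 2 * this
  have e2 : ∀ a b : Fin m, 3 * Bf T η (p a) (p b) = L a.succ * L b.succ := by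
    intro a b
    have := hE' a.succ b.succ
    have h2 : ∀ a : Fin m, Pv p η a.succ = p a := by
      intro a
      ext k
      simp [Pv]
    rw [h2, h2] at this
    have h4 : kap a.succ b.succ = 3 := by
      unfold kap
      simp [Fin.succ_ne_zero]
    rwa [h4] at this
  refine ⟨η, L 0, fun a => L a.succ, hηN, ?_, ?_, ?_⟩
  · show Bf T η η η = L 0 ^ 2
    rw [e0, sq]
  · intro a
    show 3 * Bf T η η (p a) = 2 * L 0 * L a.succ
    rw [e1, mul_assoc]
  · intro a b
    exact e2 a b

end

end Pool.Agent.Y151.LI
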